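import Pool.Agent.H912R3.Tor.E

set_option autoImplicit false

namespace Pool.Agent.Results.MP_d565f2_an.ThreeTorusPowerSaving

/-- The frequencies on the sphere `|ξ|² = n` in `ℤ³`. -/
def Sph (n : ℕ) : Set (Fin 3 → ℤ) := {ξ : Fin 3 → ℤ | ∑ i, ξ i ^ 2 = (n : ℤ)}

/-- The Laplace eigenfunction on the torus `ℝ³/ℤ³` with eigenvalue `4π²n` and Fourier
coefficients `c`. -/
noncomputable def Eig (n : ℕ) (c : (Fin 3 → ℤ) → ℂ) : (Fin 3 → ℝ) → ℂ := fun x =>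
  ∑ᶠ ξ ∈ Sph n, c ξ * Complex.exp (2 * (Real.pi : ℂ) * Complex.I *
    ∑ i, ((ξ i : ℝ) : ℂ) * ((x i : ℝ) : ℂ))

lemma sph_finite (n : ℕ) : (Sph n).Finite := by
  refine (Set.finite_Icc (fun _ : Fin 3 => -(n : ℤ)) (fun _ => (n : ℤ))).subset ?_
  intro ξ hξ
  have h : ∑ i, ξ i ^ 2 = (n : ℤ) := hξ
  have h1 : ∀ i, |ξ i| ≤ n := by
    intro i
    have h3 : (ξ i) ^ 2 ≤ ∑ j, ξ j ^ 2 :=
      Finset.single_le_sum (f := fun j => ξ j ^ 2) (fun j _ => sq_nonneg _) (Finset.mem_univ i)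
    rw [h] at h3
    have h4 : |ξ i| ≤ ξ i ^ 2 := by
      rw [← sq_abs (ξ i)]
      rcases (abs_nonneg (ξ i)).eq_or_lt with h0 | h0
      · rw [← h0]; norm_num
      · nlinarith
    linarith
  exact ⟨fun i => (abs_le.mp (h1 i)).1, fun i => (abs_le.mp (h1 i)).2⟩

/-- Power saving on the three dimensional torus: a nonzero Laplace eigenfunction with eigenvalue
`4π²n` vanishes at every point to order at most `153600 n^(5/12)`. -/
theorem result : ∀ n : ℕ, 1 ≤ n → ∀ k : ℕ,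
    (∃ c : (Fin 3 → ℤ) → ℂ, ∃ p : Fin 3 → ℝ, Eig n c ≠ 0 ∧
      ∀ j : ℕ, j < k → iteratedFDeriv ℝ j (Eig n c) p = 0) →
    (k : ℝ) ≤ 153600 * (n : ℝ) ^ ((5 : ℝ) / 12) := by
  intro n hn k ⟨c, p, hne, hvan⟩
  have hU : Eig n c = H912Tor.U (sph_finite n).toFinset c := by
    funext x
    unfold Eig H912Tor.U
    rw [finsum_mem_eq_finite_toFinset_sum _ (sph_finite n)]
  rw [hU] at hne hvan
  set t : ℝ := (n : ℝ) ^ ((1 : ℝ) / 12) with ht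
  have hnR : (1 : ℝ) ≤ n := by exact_mod_cast hn
  have ht1 : 1 ≤ t := Real.one_le_rpow hnR (by norm_num)
  have ht12 : t ^ 12 = n := by
    rw [ht, ← Real.rpow_natCast, ← Real.rpow_mul (by positivity)]
    norm_num
  have ht5 : t ^ 5 = (n : ℝ) ^ ((5 : ℝ) / 12) := by
    rw [ht, ← Real.rpow_natCast, ← Real.rpow_mul (by positivity)]
    norm_num
  have hm1 : 1 ≤ ⌈t⌉₊ := Nat.one_le_ceil_iff.mpr (by linarith)
  have hnm : n ≤ ⌈t⌉₊ ^ 12 := by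
    have h1 : t ≤ (⌈t⌉₊ : ℝ) := Nat.le_ceil t
    have h2 := pow_le_pow_left₀ (by linarith) h1 12
    rw [ht12] at h2
    exact_mod_cast h2
  have hm2 : (⌈t⌉₊ : ℝ) ≤ 2 * t := by
    have := (Nat.ceil_lt_add_one (show 0 ≤ t by linarith)).le
    linarith
  have hk := H912Tor.main_bound n hn (sph_finite n).toFinset
    (fun x => by rw [Set.Finite.mem_toFinset]; rfl) c p k hne hvan ⌈t⌉₊ hm1 hnm
  have hk' : (k : ℝ) ≤ 4800 * (⌈t⌉₊ : ℝ) ^ 5 := by exact_mod_cast hk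
  have h5 := pow_le_pow_left₀ (by positivity) hm2 5
  rw [← ht5]
  calc (k : ℝ) ≤ 4800 * (⌈t⌉₊ : ℝ) ^ 5 := hk'
    _ ≤ 4800 * (2 * t) ^ 5 := by linarith
    _ = 153600 * t ^ 5 := by ring

end Pool.Agent.Results.MP_d565f2_an.ThreeTorusPowerSaving
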