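import Pool.Agent.H912R3.Tw.E

set_option autoImplicit false

namespace Pool.Agent.Results.MP_d565f2_an.TwoTorusExact

/-- The frequencies on the circle `|ξ|² = n` in `ℤ²`. -/
def Sph (n : ℕ) : Set (Fin 2 → ℤ) := {ξ : Fin 2 → ℤ | ∑ i, ξ i ^ 2 = (n : ℤ)}

/-- The Laplace eigenfunction on the torus `ℝ²/ℤ²` with eigenvalue `4π²n` and Fourier
coefficients `c`. -/
noncomputable def Eig (n : ℕ) (c : (Fin 2 → ℤ) → ℂ) : (Fin 2 → ℝ) → ℂ := fun x =>
  ∑ᶠ ξ ∈ Sph n, c ξ * Complex.exp (2 * (Real.pi : ℂ) * Complex.I *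
    ∑ i, ((ξ i : ℝ) : ℂ) * ((x i : ℝ) : ℂ))

lemma sph_finite (n : ℕ) : (Sph n).Finite := by
  refine (Set.finite_Icc (fun _ : Fin 2 => -(n : ℤ)) (fun _ => (n : ℤ))).subset ?_
  intro ξ hξ
  have h : ∑ i, ξ i ^ 2 = (n : ℤ) := hξ
  have h1 : ∀ i, |ξ i| ≤ n := by
    intro i
    have h3 : (ξ i) ^ 2 ≤ ∑ j, ξ j ^ 2 :=
      Finset.single_le_sum (f := fun j => ξ j ^ 2) (fun j _ => sq_nonneg _) (Finset.mem_univ i)
    rw [h] at h3
    have h4 : |ξ i| ≤ ξ i ^ 2 := by
      rw [← sq_abs (ξ i)]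
      rcases (abs_nonneg (ξ i)).eq_or_lt with h0 | h0
      · rw [← h0]; norm_num
      · nlinarith
    linarith
  exact ⟨fun i => (abs_le.mp (h1 i)).1, fun i => (abs_le.mp (h1 i)).2⟩

/-- Dimension two, exact value: if the circle `|ξ|² = n` carries `N ≥ 1` integer points, then a
nonzero eigenfunction all of whose derivatives of order `< k` vanish at some point exists if and
only if `2k ≤ N`. -/
theorem result : ∀ n : ℕ, Set.ncard (Sph n) ≠ 0 → ∀ k : ℕ,
    (∃ c : (Fin 2 → ℤ) → ℂ, ∃ p : Fin 2 → ℝ, Eig n c ≠ 0 ∧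
      ∀ j : ℕ, j < k → iteratedFDeriv ℝ j (Eig n c) p = 0) ↔ 2 * k ≤ Set.ncard (Sph n) := by
  classical
  intro n hn k
  have hU : ∀ c, Eig n c = H912Tw.U (sph_finite n).toFinset c := by
    intro c
    funext x
    unfold Eig H912Tw.U
    rw [finsum_mem_eq_finite_toFinset_sum _ (sph_finite n)]
  have hS : ∀ x, x ∈ (sph_finite n).toFinset ↔ ∑ i, x i ^ 2 = (n : ℤ) :=
    fun x => by rw [Set.Finite.mem_toFinset]; rfl
  have hcard : Set.ncard (Sph n) = (sph_finite n).toFinset.card :=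
    Set.ncard_eq_toFinset_card _ (sph_finite n)
  rw [hcard] at hn ⊢
  constructor
  · rintro ⟨c, p, hne, hvan⟩
    rw [hU c] at hne hvan
    by_contra hlt
    push Not at hlt
    have hz := H912Tw.coeff_zero n _ hS c p k hvan hlt
    apply hne
    rw [H912Tw.U_eq]
    funext x
    simp only [Pi.zero_apply]
    exact Finset.sum_eq_zero fun ξ hξ => by rw [hz ξ hξ, zero_mul]
  · intro hk
    obtain ⟨a, ⟨s, hs, hsa⟩, hvan⟩ := H912Tw.exists_coeff n _ hS k hk
      (Finset.card_pos.mp (Nat.pos_of_ne_zero hn))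
    refine ⟨a, 0, ?_, ?_⟩
    · rw [hU a]
      intro h0
      have hv : H912Tw.Van ((sph_finite n).toFinset.card + 1)
          (H912Tw.U (sph_finite n).toFinset a) 0 := by
        intro j _
        rw [h0]
        simp
      exact hsa (H912Tw.coeff_zero n _ hS a 0 _ hv (by omega) s hs)
    · rw [hU a]
      exact hvan

end Pool.Agent.Results.MP_d565f2_an.TwoTorusExact
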